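import Mathlib
import Pool.Agent.L0h45.AD.Dsc
import Pool.Agent.L0h45.AR.Mom

/-!
# MP_6073f3_nt: the average rank of all elliptic curves, ordered by conductor or discriminant, is bounded

All elliptic curves `E` over `ℚ` (any reduction, any `j`) are ordered by the conductor `N`, their height being at most
`N ^ β`-like, `β < 10/7`; more generally by any invariant `I` which is at least a constant times the part prime to `6` of
the conductor and at most a constant times the height. The average of the rank over the curves with `I ≤ Z` is bounded, and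
so is the average of `2 ^ (a rank)` for every `a < 1/6` with `β (7 + 3 a) < 10`. If `I` is at least a constant times the
discriminant, this holds for all `β < 5/2` and for `β (2 + 3 a) < 5`.

Proof. (1) The sum of `2 ^ rank` over the curves of height at most `Y` is at most `C Y ^ (5/6)`: the classes of `E(ℚ)` modulo
doubles are represented by inequivalent integral binary quartic forms without rational roots, with invariants of size
`Y ^ (1/3)` and `Y ^ (1/2)` (written down explicitly for a point, `Pool/Agent/L0h45/AR/FP.lean`), and these are counted.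
(2) The number of the curves with `I ≤ Z` and height between `K Z` and `64 K Z` is at most
`C (K ^ (-s) Z ^ (5/6) + (K Z) ^ τ)`, with `s < 1/6` and `τ > 7/12` (`Pool/Agent/L0h45/AD`). (3) Interpolation.
-/

set_option autoImplicit false

namespace Pool.Agent.Results.MP_6073f3_nt.AverageRankByConductor

open Filter

/-- The pairs `(A, B)` with `4 A ^ 3 + 27 B ^ 2 ≠ 0` for which no prime `p` satisfies both `p ^ 4 ∣ A` and `p ^ 6 ∣ B`: one
for each elliptic curve over `ℚ`. -/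
def Family : Set (ℤ × ℤ) := {q | 4 * q.1 ^ 3 + 27 * q.2 ^ 2 ≠ 0 ∧
  ∀ p : ℕ, p.Prime → ¬ ((p : ℤ) ^ 4 ∣ q.1 ∧ (p : ℤ) ^ 6 ∣ q.2)}

/-- The group of the rational points of `y ^ 2 = x ^ 3 + A x + B`. -/
abbrev points (q : ℤ × ℤ) : Type :=
  (⟨0, 0, 0, (q.1 : ℚ), (q.2 : ℚ)⟩ : WeierstrassCurve ℚ).toAffine.Point

/-- The rank. -/
noncomputable def rank (q : ℤ × ℤ) : ℕ := Module.finrank ℤ (points q)

/-- The naive height `max (4 |A| ^ 3, 27 B ^ 2)`. -/
noncomputable def height (q : ℤ × ℤ) : ℝ := max (4 * |(q.1 : ℝ)| ^ 3) (27 * (q.2 : ℝ) ^ 2)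

/-- `4 A ^ 3 + 27 B ^ 2`; the minimal discriminant is this number times `-16`, divided by `1`, `2 ^ 12`, `3 ^ 12` or
`6 ^ 12`. -/
def disc (q : ℤ × ℤ) : ℤ := 4 * q.1 ^ 3 + 27 * q.2 ^ 2

/-- The part prime to `6` of the conductor: the product over the primes `p ≥ 5` of bad reduction of `p` (multiplicative
reduction) or `p ^ 2` (additive reduction, that is `p ∣ A`). The conductor is this number times `2 ^ a * 3 ^ b` with
`a ≤ 8` and `b ≤ 5`. -/
def conductor6 (q : ℤ × ℤ) : ℕ :=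
  ∏ p ∈ (disc q).natAbs.primeFactors.filter (fun p => 5 ≤ p), if (p : ℤ) ∣ q.1 then p ^ 2 else p

/-- The curves with `I ≤ Z` and height at most `Z ^ β`. -/
def UpTo (I : ℤ × ℤ → ℝ) (β Z : ℝ) : Set (ℤ × ℤ) := {q ∈ Family | I q ≤ Z ∧ height q ≤ Z ^ β}

/-- The average of the rank over the curves with `I ≤ Z` and height at most `Z ^ β`. -/
noncomputable def averageRank (I : ℤ × ℤ → ℝ) (β Z : ℝ) : ℝ :=
  (∑ᶠ q ∈ UpTo I β Z, (rank q : ℝ)) / ((UpTo I β Z).ncard : ℝ)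

/-- The average of `2 ^ (a rank)` over these curves. -/
noncomputable def averagePower (a : ℝ) (I : ℤ × ℤ → ℝ) (β Z : ℝ) : ℝ :=
  (∑ᶠ q ∈ UpTo I β Z, (2 : ℝ) ^ (a * rank q)) / ((UpTo I β Z).ncard : ℝ)

/-- The conclusion: there are about `Z ^ (5/6)` curves, the average of the rank over them is bounded, and so is the average
of `2 ^ (a rank)` for all `a ≥ 0` which satisfy the condition. -/
def Bounded (I : ℤ × ℤ → ℝ) (β : ℝ) (condition : ℝ → Prop) : Prop :=
  (∀ Z : ℝ, (UpTo I β Z).Finite) ∧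
  (∃ c C : ℝ, 0 < c ∧ ∀ᶠ Z : ℝ in atTop,
    c * Z ^ (5 / 6 : ℝ) ≤ ((UpTo I β Z).ncard : ℝ) ∧ ((UpTo I β Z).ncard : ℝ) ≤ C * Z ^ (5 / 6 : ℝ)) ∧
  (∃ C : ℝ, ∀ᶠ Z : ℝ in atTop, averageRank I β Z ≤ C) ∧
  (∀ a : ℝ, 0 ≤ a → condition a → ∃ C : ℝ, ∀ᶠ Z : ℝ in atTop, averagePower a I β Z ≤ C)

theorem pow_eq (a : ℝ) (q : ℤ × ℤ) :
    (2 : ℝ) ^ (a * rank q) = ((2 : ℝ) ^ (Pool.Agent.L0h45.AR.rk q)) ^ a := by
  have h : rank q = Pool.Agent.L0h45.AR.rk q := rfl
  rw [h, mul_comm, Real.rpow_mul (by norm_num), Real.rpow_natCast]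

theorem rank_le {a : ℝ} (ha : 0 < a) (q : ℤ × ℤ) :
    (rank q : ℝ) ≤ 1 / (a * Real.log 2) * (2 : ℝ) ^ (a * rank q) := by
  have hl : 0 < Real.log 2 := Real.log_pos (by norm_num)
  have h1 : (2 : ℝ) ^ (a * rank q) = Real.exp (Real.log 2 * (a * rank q)) := Real.rpow_def_of_pos (by norm_num) _
  have h2 := Real.add_one_le_exp (Real.log 2 * (a * rank q))
  rw [h1, div_mul_eq_mul_div, one_mul, le_div_iff₀ (by positivity)]
  linarith

theorem average_le {I : ℤ × ℤ → ℝ} {β : ℝ} (hfin : ∀ Z : ℝ, (UpTo I β Z).Finite) {c : ℝ} (hc : 0 < c)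
    (hlow : ∀ᶠ Z : ℝ in atTop, c * Z ^ (5 / 6 : ℝ) ≤ ((UpTo I β Z).ncard : ℝ)) (f : ℤ × ℤ → ℝ) {C : ℝ}
    (hC : 0 < C)
    (hf : ∀ Z : ℝ, 1 ≤ Z → ∀ T : Finset (ℤ × ℤ), (∀ q ∈ T, q ∈ UpTo I β Z) →
      ∑ q ∈ T, f q ≤ C * Z ^ (5 / 6 : ℝ)) :
    ∃ C' : ℝ, ∀ᶠ Z : ℝ in atTop, (∑ᶠ q ∈ UpTo I β Z, f q) / ((UpTo I β Z).ncard : ℝ) ≤ C' := by
  refine ⟨C / c, ?_⟩
  filter_upwards [hlow, eventually_ge_atTop 1] with Z h1 h2
  have hZ : 0 < Z ^ (5 / 6 : ℝ) := by positivity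
  have h3 : 0 < ((UpTo I β Z).ncard : ℝ) := lt_of_lt_of_le (by positivity) h1
  rw [finsum_mem_eq_finite_toFinset_sum _ (hfin Z), div_le_iff₀ h3]
  refine (hf Z h2 _ (fun q hq => by rwa [Set.Finite.mem_toFinset] at hq)).trans ?_
  calc C * Z ^ (5 / 6 : ℝ) = C / c * (c * Z ^ (5 / 6 : ℝ)) := by field_simp
    _ ≤ C / c * ((UpTo I β Z).ncard : ℝ) := by gcongr

theorem conclude {I : ℤ × ℤ → ℝ} {β C : ℝ} {cond : ℝ → Prop} (hβ : 1 ≤ β)
    (hU : ∃ C₁ : ℝ, 0 < C₁ ∧ ∀ Z : ℝ, 1 ≤ Z →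
      ((Pool.Agent.L0h45.AD.Upto I β Z).ncard : ℝ) ≤ C₁ * Z ^ (5 / 6 : ℝ))
    (hI : ∀ q ∈ Family, I q ≤ C * height q)
    (hM : ∀ a : ℝ, 0 ≤ a → cond a → ∃ C : ℝ, 0 < C ∧ ∀ Z : ℝ, 1 ≤ Z → ∀ T : Finset (ℤ × ℤ),
      (∀ q ∈ T, q ∈ Pool.Agent.L0h45.AD.Upto I β Z) →
        ∑ q ∈ T, ((2 : ℝ) ^ (Pool.Agent.L0h45.AR.rk q)) ^ a ≤ C * Z ^ (5 / 6 : ℝ))
    (hex : ∃ a : ℝ, 0 < a ∧ cond a) : Bounded I β cond := by
  have hI' : Pool.Agent.L0h45.AD.Blw C I := hI
  have hfin : ∀ Z : ℝ, (UpTo I β Z).Finite := Pool.Agent.L0h45.AD.Upto_fin I β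
  obtain ⟨c₂, hc₂, h₂⟩ := Pool.Agent.L0h45.AD.low hβ hI'
  obtain ⟨C₁, hC₁, hup⟩ := hU
  have hM' : ∀ a : ℝ, 0 ≤ a → cond a → ∃ C : ℝ, 0 < C ∧ ∀ Z : ℝ, 1 ≤ Z → ∀ T : Finset (ℤ × ℤ),
      (∀ q ∈ T, q ∈ UpTo I β Z) → ∑ q ∈ T, (2 : ℝ) ^ (a * rank q) ≤ C * Z ^ (5 / 6 : ℝ) := by
    intro a ha hca
    obtain ⟨C₃, hC₃, h₃⟩ := hM a ha hca
    refine ⟨C₃, hC₃, fun Z hZ T hT => ?_⟩
    rw [Finset.sum_congr rfl fun q _ => pow_eq a q]
    exact h₃ Z hZ T hT
  refine ⟨hfin, ⟨c₂, C₁, hc₂, ?_⟩, ?_, ?_⟩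
  · filter_upwards [h₂, eventually_ge_atTop 1] with Z h3 h4
    exact ⟨h3, hup Z h4⟩
  · obtain ⟨a, ha, hca⟩ := hex
    obtain ⟨C₃, hC₃, h₃⟩ := hM' a ha.le hca
    have hl : 0 < Real.log 2 := Real.log_pos (by norm_num)
    refine average_le hfin hc₂ h₂ (fun q => (rank q : ℝ)) (C := 1 / (a * Real.log 2) * C₃) (by positivity) ?_
    intro Z hZ T hT
    calc ∑ q ∈ T, (rank q : ℝ) ≤ ∑ q ∈ T, 1 / (a * Real.log 2) * (2 : ℝ) ^ (a * rank q) :=
          Finset.sum_le_sum fun q _ => rank_le ha q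
      _ = 1 / (a * Real.log 2) * ∑ q ∈ T, (2 : ℝ) ^ (a * rank q) := by rw [Finset.mul_sum]
      _ ≤ 1 / (a * Real.log 2) * (C₃ * Z ^ (5 / 6 : ℝ)) := by
          have := h₃ Z hZ T hT
          gcongr
      _ = _ := by ring
  · intro a ha hca
    obtain ⟨C₃, hC₃, h₃⟩ := hM' a ha hca
    exact average_le hfin hc₂ h₂ (fun q => (2 : ℝ) ^ (a * rank q)) hC₃ h₃

theorem conductor6_le (q : ℤ × ℤ) (h : q ∈ Family) : (conductor6 q : ℝ) ≤ |(disc q : ℝ)| := by
  have hD : disc q ≠ 0 := h.1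
  have hdvd : ((conductor6 q : ℕ) : ℤ) ∣ disc q := by
    unfold conductor6
    push_cast
    apply Finset.prod_dvd_of_coprime
    · intro p hp p' hp' hne
      have h1 := Nat.prime_of_mem_primeFactors (Finset.mem_filter.mp hp).1
      have h2 := Nat.prime_of_mem_primeFactors (Finset.mem_filter.mp hp').1
      have h3 : IsCoprime (p : ℤ) (p' : ℤ) :=
        Nat.isCoprime_iff_coprime.mpr ((Nat.coprime_primes h1 h2).mpr hne)
      simp only [Function.onFun]
      split_ifs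
      · exact h3.pow
      · exact h3.pow_left
      · exact h3.pow_right
      · exact h3
    · intro p hp
      rw [Finset.mem_filter, Nat.mem_primeFactors] at hp
      obtain ⟨⟨h1, h2, -⟩, h5⟩ := hp
      have h3 : (p : ℤ) ∣ disc q := Int.natCast_dvd.mpr h2
      split_ifs with h4
      · obtain ⟨k, hk⟩ := h4
        have h6 : (p : ℤ) ∣ 27 * q.2 ^ 2 := by
          have h7 : 27 * q.2 ^ 2 = disc q - p * (4 * q.1 ^ 2 * k) := by
            unfold disc
            nth_rewrite 1 [pow_succ, hk]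
            rw [hk]
            ring
          rw [h7]
          exact dvd_sub h3 (dvd_mul_right _ _)
        have h8 : (p : ℤ) ∣ q.2 := by
          have hc : IsCoprime (p : ℤ) 27 := by
            have h9 : Nat.Coprime p 27 := by
              have : (27 : ℕ) = 3 ^ 3 := by norm_num
              rw [this]
              exact Nat.Coprime.pow_right 3 ((Nat.coprime_primes h1 Nat.prime_three).mpr (by omega))
            exact_mod_cast Nat.isCoprime_iff_coprime.mpr h9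
          exact (Nat.prime_iff_prime_int.mp h1).dvd_of_dvd_pow (hc.dvd_of_dvd_mul_left h6)
        obtain ⟨l, hl⟩ := h8
        refine ⟨4 * p * k ^ 3 + 27 * l ^ 2, ?_⟩
        unfold disc
        rw [hk, hl]
        ring
      · exact h3
  have h1 : conductor6 q ≤ (disc q).natAbs :=
    Nat.le_of_dvd (Int.natAbs_pos.mpr hD) (Int.natCast_dvd.mp hdvd)
  calc (conductor6 q : ℝ) ≤ (((disc q).natAbs : ℕ) : ℝ) := by exact_mod_cast h1
    _ = |(disc q : ℝ)| := by
      rw [← Int.cast_abs, Int.abs_eq_natAbs]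
      simp

theorem disc_le (q : ℤ × ℤ) : |(disc q : ℝ)| ≤ 2 * height q := by
  unfold disc height
  push_cast
  have h1 := abs_add_le (4 * (q.1 : ℝ) ^ 3) (27 * (q.2 : ℝ) ^ 2)
  rw [abs_mul, abs_mul, abs_pow, abs_pow, abs_of_pos (by norm_num : (0 : ℝ) < 4),
    abs_of_pos (by norm_num : (0 : ℝ) < 27), sq_abs] at h1
  have h2 := le_max_left (4 * |(q.1 : ℝ)| ^ 3) (27 * (q.2 : ℝ) ^ 2)
  have h3 := le_max_right (4 * |(q.1 : ℝ)| ^ 3) (27 * (q.2 : ℝ) ^ 2)
  linarith

/-- **Theorem.** (1) Let `1 < β < 10/7` and let the invariant `I` be at least `c` times the part prime to `6` of the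
conductor and at most `C` times the height, with constants `c, C > 0`; for example `I` may be the conductor. Then there are
about `Z ^ (5/6)` elliptic curves over `ℚ` with `I ≤ Z` and height at most `Z ^ β`, the average of the rank over them is
bounded, and so is the average of `2 ^ (a rank)` for all `a ≥ 0` with `a < 1/6` and `β (7 + 3 a) < 10`. (2) If `I` is at
least `c` times the discriminant, for example the minimal discriminant, this is true for `1 < β < 5/2`, with the condition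
`a < 1/6` and `β (2 + 3 a) < 5`. (3) The part prime to `6` of the conductor is at most `|4 A ^ 3 + 27 B ^ 2|`, which is at
most twice the height. -/
theorem result :
    (∀ (I : ℤ × ℤ → ℝ) (c C β : ℝ), 0 < c → 0 < C → 1 < β → β < 10 / 7 →
      (∀ q ∈ Family, c * (conductor6 q : ℝ) ≤ I q ∧ I q ≤ C * height q) →
      Bounded I β (fun a => a < 1 / 6 ∧ β * (7 + 3 * a) < 10)) ∧
    (∀ (I : ℤ × ℤ → ℝ) (c C β : ℝ), 0 < c → 0 < C → 1 < β → β < 5 / 2 →
      (∀ q ∈ Family, c * |(disc q : ℝ)| ≤ I q ∧ I q ≤ C * height q) →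
      Bounded I β (fun a => a < 1 / 6 ∧ β * (2 + 3 * a) < 5)) ∧
    (∀ q ∈ Family, (conductor6 q : ℝ) ≤ |(disc q : ℝ)| ∧ |(disc q : ℝ)| ≤ 2 * height q) := by
  refine ⟨?_, ?_, ?_⟩
  · intro I c C β hc hC hβ1 hβ2 hI
    have hI' : Pool.Agent.L0h45.AD.Btw c C I := hI
    refine conclude (by linarith)
      (Pool.Agent.L0h45.AD.split (s := 1 / 12) (by norm_num) (by norm_num) (by linarith) hβ2 hc hI').up
      (fun q hq => (hI q hq).2) ?_ ?_
    · rintro a ha ⟨h1, h2⟩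
      have h1a : 0 < 1 - a := by linarith
      -- `s` slightly smaller than `1/6`
      obtain ⟨s, hs⟩ : ∃ s, s = (1 / 6 + 5 / 6 * a / (1 - a)) / 2 := ⟨_, rfl⟩
      have h3 : 5 / 6 * a / (1 - a) < 1 / 6 := by
        rw [div_lt_iff₀ h1a]
        linarith
      have h3' : 0 ≤ 5 / 6 * a / (1 - a) := by positivity
      have h4 : 5 / 6 * a / (1 - a) < s := by rw [hs]; linarith
      rw [div_lt_iff₀ h1a] at h4
      obtain ⟨τ, hτ⟩ : ∃ τ, τ = (7 / 12 + (5 / 6 / β - 5 / 6 * a) / (1 - a)) / 2 := ⟨_, rfl⟩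
      have hβ0 : 0 < β := by linarith
      have h5 : 7 / 12 < (5 / 6 / β - 5 / 6 * a) / (1 - a) := by
        rw [lt_div_iff₀ h1a, lt_sub_iff_add_lt, lt_div_iff₀ hβ0]
        nlinarith
      have h6 : τ < (5 / 6 / β - 5 / 6 * a) / (1 - a) := by rw [hτ]; linarith
      rw [lt_div_iff₀ h1a, lt_sub_iff_add_lt, lt_div_iff₀ hβ0] at h6
      exact Pool.Agent.L0h45.AR.moment (s := s) (τ := τ) (by rw [hs]; linarith) (by rw [hτ]; linarith) hβ0 ha
        (by linarith) h4 (by linarith)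
        (Pool.Agent.L0h45.AD.shl_cond (by rw [hs]; linarith) (by rw [hs]; linarith) (by rw [hτ]; linarith) hc
          fun q hq => (hI q hq).1)
    · obtain ⟨a, ha⟩ : ∃ a, a = min (1 / 12) ((10 / β - 7) / 6) := ⟨_, rfl⟩
      have hβ0 : 0 < β := by linarith
      have h1 : 0 < 10 / β - 7 := by
        rw [sub_pos, lt_div_iff₀ hβ0]
        linarith
      refine ⟨a, ?_, ?_, ?_⟩
      · rw [ha]
        exact lt_min (by norm_num) (by linarith)
      · have : a ≤ 1 / 12 := by rw [ha]; exact min_le_left _ _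
        linarith
      · have h2 : a ≤ (10 / β - 7) / 6 := by rw [ha]; exact min_le_right _ _
        have h3 : 7 + 3 * a < 10 / β := by linarith
        rw [lt_div_iff₀ hβ0] at h3
        linarith
  · intro I c C β hc hC hβ1 hβ2 hI
    refine conclude hβ1.le
      (Pool.Agent.L0h45.AD.up_disc (by linarith) hβ2.le hc (fun q hq => (hI q hq).1))
      (fun q hq => (hI q hq).2) ?_ ?_
    · rintro a ha ⟨h1, h2⟩
      exact Pool.Agent.L0h45.AR.moment (s := 1 / 6) (τ := 1 / 3) (by norm_num) (by norm_num) (by linarith) ha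
        (by linarith) (by linarith) (by linarith)
        (Pool.Agent.L0h45.AD.shl_disc hc fun q hq => (hI q hq).1)
    · obtain ⟨a, ha⟩ : ∃ a, a = min (1 / 12) ((5 / β - 2) / 6) := ⟨_, rfl⟩
      have hβ0 : 0 < β := by linarith
      have h1 : 0 < 5 / β - 2 := by
        rw [sub_pos, lt_div_iff₀ hβ0]
        linarith
      refine ⟨a, ?_, ?_, ?_⟩
      · rw [ha]
        exact lt_min (by norm_num) (by linarith)
      · have : a ≤ 1 / 12 := by rw [ha]; exact min_le_left _ _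
        linarith
      · have h2 : a ≤ (5 / β - 2) / 6 := by rw [ha]; exact min_le_right _ _
        have h3 : 2 + 3 * a < 5 / β := by linarith
        rw [lt_div_iff₀ hβ0] at h3
        linarith
  · intro q hq
    exact ⟨conductor6_le q hq, disc_le q⟩

end Pool.Agent.Results.MP_6073f3_nt.AverageRankByConductor
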