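import Mathlib
import Pool.Agent.L0h94.SL.Main
import Pool.Agent.L0h94.RZ.Main2
import Pool.Agent.L0h94.RZ.Fin4
import Pool.Agent.L0h94.RZ.Grf
import Pool.Agent.Y700.ShaVC

/-!
# Full rational 2-torsion: every 2-Selmer rank occurs for a positive proportion, in all three
# orderings

All elliptic curves over `ℚ` with full rational 2-torsion, one for each isomorphism class, ordered by
the conductor, by the absolute value of the minimal discriminant, or by the naive height, with no
further restriction. For every `a ≥ 0`, in each of the three orderings a positive proportion of the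
curves has a 2-Selmer group with exactly `2 ^ (a + 2)` elements, and rank at most `a`. A positive
proportion has only finitely many rational points and a Tate-Shafarevich group without 2-primary
part.
-/

set_option autoImplicit false

namespace Pool.Agent.Results.MP_6073f3_nt.FullTwoTorsionSelmerRanks

/-- the curve `y² = x³ + A x + B` over `ℚ` -/
def E (A B : ℤ) : WeierstrassCurve ℚ := ⟨0, 0, 0, (A : ℚ), (B : ℚ)⟩

/-- `4 A³ + 27 B² ≠ 0` and there is no prime `p` with `p⁴ ∣ A` and `p⁶ ∣ B`. Every elliptic curve over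
`ℚ` is isomorphic to `E A B` for exactly one such pair. -/
def Minimal (A B : ℤ) : Prop :=
  4 * A ^ 3 + 27 * B ^ 2 ≠ 0 ∧ ∀ p : ℕ, p.Prime → ¬ ((p : ℤ) ^ 4 ∣ A ∧ (p : ℤ) ^ 6 ∣ B)

/-- all 2-torsion points are rational: `x³ + A x + B` splits over `ℚ` -/
def FullTwoTorsion (A B : ℤ) : Prop :=
  ∃ r₁ r₂ r₃ : ℚ, ∀ x : ℚ, x ^ 3 + A * x + B = (x - r₁) * (x - r₂) * (x - r₃)

/-- `4 A³ + 27 B²` -/
def Disc (A B : ℤ) : ℤ := 4 * A ^ 3 + 27 * B ^ 2

/-- the prime-to-6 part of the conductor of `E A B`, `(A, B)` minimal: the product over the primes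
`p ≥ 5` dividing `4 A³ + 27 B²` of `p` (multiplicative reduction: `p ∤ A`) or `p²` (additive
reduction: `p ∣ A`) -/
def Cond6 (A B : ℤ) : ℕ :=
  ∏ p ∈ (Disc A B).natAbs.primeFactors.filter (fun p => 5 ≤ p), if (p : ℤ) ∣ A then p ^ 2 else p

/-- the admissible factors: functions with values between `1` and `2 ^ 8 * 3 ^ 5`, for instance the
part of the conductor composed of the primes 2 and 3 -/
def Factor (f : ℤ × ℤ → ℕ) : Prop := ∀ c, 1 ≤ f c ∧ f c ≤ 2 ^ 8 * 3 ^ 5

/-- `f * Cond6`; for a suitable admissible factor `f` this is the conductor -/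
def Conductor (f : ℤ × ℤ → ℕ) (c : ℤ × ℤ) : ℕ := f c * Cond6 c.1 c.2

/-- the absolute value of the minimal discriminant of an elliptic curve `W` over `ℚ`: the smallest
absolute value of the discriminant of a Weierstrass equation `V` with integer coefficients which is
isomorphic to `W` over `ℚ` -/
noncomputable def minDisc (W : WeierstrassCurve ℚ) : ℕ :=
  sInf {n : ℕ | ∃ (V : WeierstrassCurve ℤ) (C : WeierstrassCurve.VariableChange ℚ),
    C • W = V.map (Int.castRingHom ℚ) ∧ n = V.Δ.natAbs}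

/-- the ordering by the minimal discriminant -/
noncomputable def Discriminant (c : ℤ × ℤ) : ℕ := minDisc (E c.1 c.2)

/-- the ordering by the naive height -/
def Height (c : ℤ × ℤ) : ℕ := (max (4 * |c.1| ^ 3) (27 * c.2 ^ 2)).toNat

/-- the isomorphism classes of the elliptic curves over `ℚ` with full rational 2-torsion whose
invariant `I` is at most `X` -/
def Classes (I : ℤ × ℤ → ℕ) (X : ℕ) : Set (ℤ × ℤ) :=
  {c | Minimal c.1 c.2 ∧ FullTwoTorsion c.1 c.2 ∧ I c ≤ X}

/-- the rank of `E A B` over `ℚ`, `c = (A, B)` -/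
noncomputable def rank (c : ℤ × ℤ) : ℕ := Module.finrank ℤ (E c.1 c.2).toAffine.Point

/-- there is a point `(x, y)`, `y ≠ 0`, with coordinates in the field `K` on the curve
`y² = (x - r 0) (x - r 1) (x - r 2)` such that `x - r i` is `d i` times a nonzero square of `K`,
`i = 0, 1, 2` -/
def LocSol (K : Type) [Field K] (r d : Fin 3 → ℤ) : Prop :=
  ∃ x y : K, y ≠ 0 ∧ y ^ 2 = (x - r 0) * (x - r 1) * (x - r 2) ∧
    ∀ i, ∃ z : K, z ≠ 0 ∧ x - r i = d i * z ^ 2

/-- the 2-Selmer group of the curve `y² = (x - r 0) (x - r 1) (x - r 2)` over `ℚ`: the triples of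
classes of `ℚˣ / ℚˣ²`, given by squarefree integers, whose product is a square and which over `ℝ`
and over `ℚ_p` for every prime `p` are the classes of `x - r i` for a point of the curve. (Every
class in the image of `E(K)`, `K = ℝ` or `ℚ_p`, contains a point `(x, y)` with `y ≠ 0`.) -/
def Selmer (r : Fin 3 → ℤ) : Set (Fin 3 → ℤ) :=
  {d | (∀ i, Squarefree (d i)) ∧ IsSquare (d 0 * d 1 * d 2) ∧ LocSol ℝ r d ∧
    ∀ (p : ℕ) [Fact p.Prime], LocSol ℚ_[p] r d}

/-- `E A B`, `c = (A, B)`, has a 2-Selmer group with exactly `2 ^ (a + 2)` elements (so the 2-Selmer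
rank is `a`, after the four classes of the 2-torsion points are taken away), and rank at most `a` -/
def SelmerRank (a : ℕ) (c : ℤ × ℤ) : Prop :=
  (∃ r : Fin 3 → ℤ, (∀ x : ℚ, x ^ 3 + c.1 * x + c.2 = (x - r 0) * (x - r 1) * (x - r 2)) ∧
    (Selmer r).ncard = 2 ^ (a + 2)) ∧ rank c ≤ a

/-- the Tate-Shafarevich group of `E A B` over `ℚ`, `c = (A, B)`: the kernel of
`H¹(ℚ, E) → ∏ H¹(ℚ_v, E)`, `v` running over the primes and infinity, for continuous cocycles of the
absolute Galois groups -/
abbrev Sha (c : ℤ × ℤ) : Type := Pool.Agent.TH841.SH.D.Sha (E c.1 c.2)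

/-- the group of the rational points is finite (so the rank is 0), and the Tate-Shafarevich group has
no elements of order a power of 2 except 0 -/
def RankZero (c : ℤ × ℤ) : Prop :=
  Finite (E c.1 c.2).toAffine.Point ∧ rank c = 0 ∧ ∀ (n : ℕ) (x : Sha c), 2 ^ n • x = 0 → x = 0

/-- In each of the three orderings: the number of the classes with invariant at most `X` is finite,
it is at least `c X ^ (2/3)` (conductor, any admissible factor) or `c X ^ (1/3)` (discriminant,
height) for large `X`, and for large `X` at least the proportion `c > 0` of them has the property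
`P`. -/
def PositiveProportion (P : ℤ × ℤ → Prop) : Prop := ∃ c X₀ : ℝ, 0 < c ∧
    (∀ f, Factor f → ∀ X : ℕ, X₀ ≤ (X : ℝ) → (Classes (Conductor f) X).Finite ∧
      c * (X : ℝ) ^ ((2 : ℝ) / 3) ≤ ((Classes (Conductor f) X).ncard : ℝ) ∧
      c * ((Classes (Conductor f) X).ncard : ℝ) ≤
        ({t | t ∈ Classes (Conductor f) X ∧ P t}.ncard : ℝ)) ∧
    (∀ X : ℕ, X₀ ≤ (X : ℝ) → (Classes Discriminant X).Finite ∧
      c * (X : ℝ) ^ ((1 : ℝ) / 3) ≤ ((Classes Discriminant X).ncard : ℝ) ∧
      c * ((Classes Discriminant X).ncard : ℝ) ≤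
        ({t | t ∈ Classes Discriminant X ∧ P t}.ncard : ℝ)) ∧
    (∀ X : ℕ, X₀ ≤ (X : ℝ) → (Classes Height X).Finite ∧
      c * (X : ℝ) ^ ((1 : ℝ) / 3) ≤ ((Classes Height X).ncard : ℝ) ∧
      c * ((Classes Height X).ncard : ℝ) ≤
        ({t | t ∈ Classes Height X ∧ P t}.ncard : ℝ))

theorem locSol_of {K : Type} [Field K] {r d : Fin 3 → ℤ} (hs : IsSquare (d 0 * d 1 * d 2))
    (hd : ∀ i, (d i : K) ≠ 0) (h : Pool.Agent.L0h94.SL.LocSol K r d) : LocSol K r d := by
  obtain ⟨x, hx⟩ := h
  choose z hz0 hz using hx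
  obtain ⟨s, hs⟩ := hs
  have hs2 : (s : K) ^ 2 = d 0 * d 1 * d 2 := by
    have := congrArg (Int.cast : ℤ → K) hs
    push_cast at this
    rw [this]
    ring
  have hs0 : (s : K) ≠ 0 := by
    intro h0
    rw [h0, zero_pow two_ne_zero] at hs2
    exact mul_ne_zero (mul_ne_zero (hd 0) (hd 1)) (hd 2) hs2.symm
  refine ⟨x, s * (z 0 * z 1 * z 2), mul_ne_zero hs0 (mul_ne_zero (mul_ne_zero (hz0 0) (hz0 1))
    (hz0 2)), ?_, fun i => ⟨z i, hz0 i, hz i⟩⟩
  rw [hz 0, hz 1, hz 2, mul_pow, hs2]
  ring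

theorem selmer_eq (r : Fin 3 → ℤ) : Selmer r = Pool.Agent.L0h94.SL.SelSet r := by
  ext d
  constructor
  · rintro ⟨h1, h2, ⟨x, -, -, -, h3⟩, h4⟩
    refine ⟨h1, h2, ⟨x, h3⟩, fun p _ => ?_⟩
    obtain ⟨y, -, -, -, h5⟩ := h4 p
    exact ⟨y, h5⟩
  · rintro ⟨h1, h2, h3, h4⟩
    exact ⟨h1, h2, locSol_of h2 (fun i => Int.cast_ne_zero.2 (h1 i).ne_zero) h3,
      fun p _ => locSol_of h2 (fun i => Int.cast_ne_zero.2 (h1 i).ne_zero) (h4 p)⟩

open Classical in
theorem positive_of {P : ℤ × ℤ → Prop} (hM : Pool.Agent.L0h94.RZ.MainP P) :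
    PositiveProportion P := by
  obtain ⟨c0, hc0, X0, k1, k2, k3⟩ := Pool.Agent.L0h94.RZ.fin3P P hM
  obtain ⟨d1, ⟨cd, Cd, Xd, hcd, -, hd⟩, -⟩ := Pool.Agent.L0h94.CO.thmD
  obtain ⟨h1, ⟨ch, Ch, Xh, hch, -, hh⟩, -⟩ := Pool.Agent.L0h94.CO.thmH
  obtain ⟨cc, Cc, Xc, hccp, hcc⟩ := Pool.Agent.L0h94.CO.cntC
  have hfinC : ∀ f, Factor f → ∀ X : ℕ, (Classes (Conductor f) X).Finite := by
    obtain ⟨C, hC⟩ := Pool.Agent.L0h94.CO.thmC one_pos (by norm_num)
    exact fun f hf X => (hC f hf X).1
  refine ⟨min (min c0 cd) (min ch cc), max (max X0 Xd) (max Xh Xc), by positivity, ?_, ?_, ?_⟩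
  · intro f hf X hX
    refine ⟨hfinC f hf X, ?_, ?_⟩
    · refine le_trans (mul_le_mul_of_nonneg_right ((min_le_right _ _).trans (min_le_right _ _))
        (by positivity)) (hcc f hf X ?_).1
      exact ((le_max_right _ _).trans (le_max_right _ _)).trans hX
    · refine le_trans (mul_le_mul_of_nonneg_right ((min_le_left _ _).trans (min_le_left _ _))
        (by positivity)) (k1 f hf X ?_)
      exact ((le_max_left _ _).trans (le_max_left _ _)).trans hX
  · intro X hX
    refine ⟨d1 X, ?_, ?_⟩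
    · refine le_trans (mul_le_mul_of_nonneg_right ((min_le_left _ _).trans (min_le_right _ _))
        (by positivity)) (hd X ?_).1
      exact ((le_max_right _ _).trans (le_max_left _ _)).trans hX
    · refine le_trans (mul_le_mul_of_nonneg_right ((min_le_left _ _).trans (min_le_left _ _))
        (by positivity)) (k2 X ?_)
      exact ((le_max_left _ _).trans (le_max_left _ _)).trans hX
  · intro X hX
    refine ⟨h1 X, ?_, ?_⟩
    · refine le_trans (mul_le_mul_of_nonneg_right ((min_le_right _ _).trans (min_le_left _ _))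
        (by positivity)) (hh X ?_).1
      exact ((le_max_left _ _).trans (le_max_right _ _)).trans hX
    · refine le_trans (mul_le_mul_of_nonneg_right ((min_le_left _ _).trans (min_le_left _ _))
        (by positivity)) (k3 X ?_)
      exact ((le_max_left _ _).trans (le_max_left _ _)).trans hX

/-- **Theorem.** Elliptic curves over `ℚ` with full rational 2-torsion, in each of the three
orderings (conductor, minimal discriminant, naive height). For every `a ≥ 0` there is a positive
proportion (depending on `a`) whose 2-Selmer group has exactly `2 ^ (a + 2)` elements and whose rank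
is at most `a`; and there is a positive proportion with only finitely many rational points and
trivial 2-primary part of the Tate-Shafarevich group. -/
theorem result : (∀ a : ℕ, PositiveProportion (SelmerRank a)) ∧ PositiveProportion RankZero := by
  classical
  constructor
  · intro a
    refine positive_of ?_
    have h := Pool.Agent.L0h94.SL.m_fina a
    have he : SelmerRank a = Pool.Agent.L0h94.SL.SR a := by
      funext c
      refine propext ⟨?_, ?_⟩
      · rintro ⟨⟨r, h1, h2⟩, h3⟩
        refine ⟨h3, r, h1, ?_, ?_⟩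
        · rw [← selmer_eq]
          refine Set.finite_of_ncard_ne_zero ?_
          rw [h2]
          positivity
        · rw [← selmer_eq]
          exact h2
      · rintro ⟨h3, r, h1, -, h2⟩
        exact ⟨⟨r, h1, by rw [selmer_eq]; exact h2⟩, h3⟩
    rw [he]
    exact h
  · refine positive_of ?_
    obtain ⟨c, hc, H0, h⟩ := Pool.Agent.L0h94.RZ.m_main2
    refine ⟨c, hc, H0, fun H hH => (h H hH).trans ?_⟩
    refine Nat.cast_le.2 (Finset.card_le_card ?_)
    intro t ht
    obtain ⟨h1, h2⟩ := Finset.mem_filter.1 ht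
    obtain ⟨a1, -, -⟩ := Pool.Agent.L0h94.CO.cv_fam h1
    have hD : (E t.1 t.2).Δ ≠ 0 := by
      intro h6
      apply a1.1
      have h4 : (E t.1 t.2).Δ = -16 * ((4 * t.1 ^ 3 + 27 * t.2 ^ 2 : ℤ) : ℚ) := by
        simp only [E, WeierstrassCurve.Δ, WeierstrassCurve.b₂, WeierstrassCurve.b₄,
          WeierstrassCurve.b₆, WeierstrassCurve.b₈]
        push_cast
        ring
      rw [h4] at h6
      have h5 : ((4 * t.1 ^ 3 + 27 * t.2 ^ 2 : ℤ) : ℚ) = 0 := by linarith
      exact_mod_cast h5
    refine Finset.mem_filter.2 ⟨h1, Pool.Agent.L0h94.RZ.finite_of_rank_zero _ hD h2.1, h2.1, ?_⟩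
    intro n x hx
    exact Pool.Agent.Y700.sha_two_pow (u := 1) (r := 0) (s := 0) (t := 0)
      (W := E t.1 t.2) (W' := E t.1 t.2)
      ⟨one_ne_zero, by ring, by ring, by ring, by ring, by ring⟩ hD h2.2 n x hx

end Pool.Agent.Results.MP_6073f3_nt.FullTwoTorsionSelmerRanks
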