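import Mathlib
import Pool.Agent.L0h45.LR.Asm
import Pool.Agent.N922.PQ.Unr

/-!
# MP_6073f3_nt: rank zero for a positive upper density of the curves on vertical lines `y² = x³ + A x + t`, `A` fixed

1. Let `a` be an odd positive integer, `a = 2` modulo `3`, not a square. There is a finite set `𝒟` of positive integers such that
for a positive proportion of all integers `b`, `|b| ≤ X`, `X` large, some twist of `y² = x³ + a x + b` by a `D` in `𝒟` has trivial
Mordell-Weil group over `ℚ`, trivial 2-Selmer group, and trivial 2-primary part of the Tate-Shafarevich group. Hence for some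
`D > 0` the curves `y² = x³ + A x + t`, `A = a D ²` FIXED, have rank zero for a set of integers `t` of positive upper density.

2. The same over any Galois extension `F / ℚ` of 2-power degree in which `2` is unramified, for infinitely many `a`.

The proof. The curves on the line are ordered by `|b| ≤ X³`. We consider the `b`, `a` fixed, for which `4 a³ + 27 b²` is
squarefree and `x³ + a x + b` is `x (x² + a)` modulo each prime `Q` in a finite set `S` of primes, `1` modulo `8`, modulo which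
`- a` is not a square. By the work on all elliptic curves (projects PQ and PV, helper922) either some twist of the curve by a
product of elements of `S` is as desired, or the curve is bad: it comes from a ternary symmetric matrix `B = (x, y, c; y, -2c, z;
c, z, w)` in a box of type `T`, `|x| T² ≤ K X`, `|y| T ≤ K X`, `|c| ≤ K X`, `|z| ≤ K X T`, `|w| ≤ K X T²`, with
`3 c² + 2 y z + x w = - a` and with two common isotropic vectors with the standard form modulo each `Q` in `S`. New is the bound for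
the number of the bad `b` for a FIXED `a`: every bad `b` comes from `T` matrices; the number of the integral points of the box on the
quadric `3 c² + 2 y z + x w = - a` in a residue class modulo `M = ∏ Q` is at most `(K / M⁴ + ε) X³` for large `X`, with an absolute
constant `K`: for given `x`, `y` the pairs `(c, z)` are given by a quadratic congruence modulo `x`, and Weyl's inequality shows
that they are equidistributed (`S_EQ`); a sum over `x`, `y` with their greatest common divisor gives the bound, and small `x`, `y`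
contribute little. As half of the classes modulo `Q` have the isotropic vectors, only `K X³ / (2^|S| M)` of the
`b` are bad, and `c X³ / M` are in the family (`c` and `K` do not depend on `S`).

Project LR (helper45): modules by helpers 6, 29, 32, 44, 53, 56, 71, 83, 84, 95, 96, and projects PQ, PV (start files).
-/

set_option autoImplicit false

open Filter NumberField

namespace Pool.Agent.Results.MP_6073f3_nt.RankZeroOnVerticalLines

/-- The curve `y² = x³ + A x + B` over `ℚ`. -/
def curve (A B : ℤ) : WeierstrassCurve ℚ := ⟨0, 0, 0, (A : ℚ), (B : ℚ)⟩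

/-- The curve `E : y² = x³ + A x + B` is an elliptic curve, `E(F)` consists of the point at infinity, the 2-Selmer group of `E` over
`F` is zero (every cocycle of the absolute Galois group with values in `E[2]` which is trivial in `H¹(F_v, E)` for all finite places
`v` is a coboundary in `E[2]`), and the 2-primary part of the Tate-Shafarevich group of `E` over `F` is zero. -/
structure Trivial (F : Type) [Field F] [NumberField F] (A B : ℤ) : Prop where
  elliptic : 4 * A ^ 3 + 27 * B ^ 2 ≠ 0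
  points : Subsingleton ((curve A B).baseChange F).toAffine.Point
  selmer : Pool.Agent.N874.PM.SelR (𝓞 F) (Pool.Agent.N874.PP.sW (A : F) (B : F))
  sha : Pool.Agent.N874.PM.ShaR (𝓞 F) (Pool.Agent.N874.PP.sW (A : F) (B : F))

/-- For a positive proportion of all `b` some twist, by a `D` in the finite set `𝒟`, of `y² = x³ + a x + b` is `Trivial`; and there is
a `D > 0` such that the set of all `t` for which `y² = x³ + a D ² x + t` is `Trivial` has positive upper density. -/
def OnLines (F : Type) [Field F] [NumberField F] (a : ℤ) : Prop :=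
  (∃ (𝒟 : Finset ℤ) (c : ℝ), (∀ D ∈ 𝒟, 0 < D) ∧ 0 < c ∧ ∀ᶠ X : ℕ in atTop,
    c * (X : ℝ) ≤ ({b : ℤ | |b| ≤ (X : ℤ) ∧ ∃ D ∈ 𝒟, Trivial F (a * D ^ 2) (b * D ^ 3)}.ncard : ℝ)) ∧
  ∃ (D : ℤ) (c : ℝ), 0 < D ∧ 0 < c ∧ ∃ᶠ X : ℕ in atTop,
    c * (X : ℝ) ≤ ({t : ℤ | |t| ≤ (X : ℤ) ∧ Trivial F (a * D ^ 2) t}.ncard : ℝ)

theorem of_con (F : Type) [Field F] [NumberField F] {a : ℤ} (ha : 0 < a) (h : Pool.Agent.L0h45.LR.Con F (𝓞 F) a) :
    OnLines F a := by
  have key : ∀ A B : ℤ, 0 < A → Pool.Agent.N922.PQ.GoodV (M := F) (𝓞 F) (A, B) → Trivial F A B := by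
    rintro A B hA ⟨h1, h2, h3⟩
    have e : (Pool.Agent.N874.PP.sW (A : F) (B : F)).baseChange F = (curve A B).baseChange F := by
      apply WeierstrassCurve.ext <;>
        simp [Pool.Agent.N874.PP.sW, curve, WeierstrassCurve.baseChange]
    have key : ∀ W : WeierstrassCurve F,
        (Pool.Agent.N874.PP.sW (A : F) (B : F)).baseChange F = W → Subsingleton W.toAffine.Point := by
      rintro W rfl
      exact h2
    refine ⟨?_, key _ e, h1, h3⟩
    have h4 : 0 < A ^ 3 := by positivity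
    have h5 : 0 ≤ B ^ 2 := by positivity
    linarith
  obtain ⟨⟨𝒟, c, h1, h2, X₀, h3⟩, D, c', h4, h5, h6⟩ := h
  refine ⟨⟨𝒟, c, h1, h2, ?_⟩, D, c', h4, h5, ?_⟩
  · filter_upwards [eventually_ge_atTop X₀] with X hX
    refine (h3 X hX).trans ?_
    have hfin : {b : ℤ | |b| ≤ (X : ℤ) ∧ ∃ D ∈ 𝒟, Trivial F (a * D ^ 2) (b * D ^ 3)}.Finite := by
      refine (Set.finite_Icc (-(X : ℤ)) X).subset ?_
      rintro b ⟨hb, -⟩
      exact abs_le.1 hb
    have := Set.ncard_le_ncard (s := {b : ℤ | |b| ≤ (X : ℤ) ∧ ∃ D ∈ 𝒟, Pool.Agent.N922.PQ.GoodV (M := F) (𝓞 F)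
      (a * D ^ 2, b * D ^ 3)}) (by
        rintro b ⟨hb, D, hD, hg⟩
        refine ⟨hb, D, hD, key _ _ ?_ hg⟩
        have := h1 D hD
        positivity) hfin
    exact_mod_cast this
  · rw [frequently_atTop]
    intro X₁
    obtain ⟨X, hX, h7⟩ := h6 X₁
    refine ⟨X, hX, h7.trans ?_⟩
    have hfin : {t : ℤ | |t| ≤ (X : ℤ) ∧ Trivial F (a * D ^ 2) t}.Finite := by
      refine (Set.finite_Icc (-(X : ℤ)) X).subset ?_
      rintro b ⟨hb, -⟩
      exact abs_le.1 hb
    have := Set.ncard_le_ncard (s := {t : ℤ | |t| ≤ (X : ℤ) ∧ Pool.Agent.N922.PQ.GoodV (M := F) (𝓞 F)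
      (a * D ^ 2, t)}) (by
        rintro b ⟨hb, hg⟩
        exact ⟨hb, key _ _ (by positivity) hg⟩) hfin
    exact_mod_cast this

/-- `2` is unramified in `ℚ` -/
theorem two_unr (𝔭 : Ideal (𝓞 ℚ)) (h : 𝔭.IsPrime) : (2 : 𝓞 ℚ) ∉ 𝔭 ^ 2 := by
  intro h2
  obtain ⟨e⟩ : Nonempty (𝓞 ℚ ≃+* ℤ) := ⟨Rat.ringOfIntegersEquiv⟩
  have h3 : (2 : ℤ) ∈ (𝔭.map (e : 𝓞 ℚ →+* ℤ)) ^ 2 := by
    rw [← Ideal.map_pow]
    have := Ideal.mem_map_of_mem (e : 𝓞 ℚ →+* ℤ) h2
    rwa [show (e : 𝓞 ℚ →+* ℤ) 2 = 2 from map_ofNat _ 2] at this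
  have h4 : (𝔭.map (e : 𝓞 ℚ →+* ℤ)).IsPrime := Ideal.map_isPrime_of_equiv e
  obtain ⟨q, hq⟩ : ∃ q, 𝔭.map (e : 𝓞 ℚ →+* ℤ) = Ideal.span {q} := (IsPrincipalIdealRing.principal _).1
  rw [hq] at h3 h4
  rw [Ideal.span_singleton_pow, Ideal.mem_span_singleton] at h3
  have hq0 : q ≠ 0 := by
    rintro rfl
    norm_num at h3
  have hqp : Prime q := (Ideal.span_singleton_prime hq0).1 h4
  have h5 := (Int.prime_iff_natAbs_prime.1 hqp).two_le
  have h6 : q.natAbs ^ 2 ∣ 2 := by
    have := Int.natAbs_dvd_natAbs.2 h3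
    rwa [Int.natAbs_pow] at this
  have h7 := Nat.le_of_dvd (by norm_num) h6
  nlinarith

theorem result :
    (∀ a : ℤ, 0 < a → Odd a → a % 3 = 2 → ¬ IsSquare a → OnLines ℚ a) ∧
    ∀ (F : Type) [Field F] [NumberField F] [IsGalois ℚ F] (n : ℕ), Module.finrank ℚ F = 2 ^ n →
      (∀ 𝔭 : Ideal (𝓞 F), 𝔭.IsPrime → (2 : 𝓞 F) ∉ 𝔭 ^ 2) → ∀ N : ℤ, ∃ a : ℤ, N ≤ a ∧ 0 < a ∧ OnLines F a := by
  refine ⟨fun a h0 h1 h3 hsq => ?_, fun F _ _ _ n hn h2 N => ?_⟩
  · exact of_con ℚ h0 (Pool.Agent.L0h45.LR.asmQ (𝓞 ℚ) (Pool.Agent.N922.PQ.val_two_of two_unr) a h0 h1 h3 hsq)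
  · obtain ⟨a, ha, ha0, h⟩ := Pool.Agent.L0h45.LR.asmM F (𝓞 F) n hn (Pool.Agent.N922.PQ.val_two_of h2) N
    exact ⟨a, ha, ha0, of_con F ha0 h⟩

end Pool.Agent.Results.MP_6073f3_nt.RankZeroOnVerticalLines
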