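import Mathlib
import Pool.Agent.L0h45.AD.Dsc
import Pool.Agent.L0h45.AD.RkZ
import Pool.Agent.L0h94.SP.Main

/-!
# MP_6073f3_nt: ordered by conductor or discriminant, every 2-Selmer rank has a positive proportion

All elliptic curves `E` over `ℚ` (any reduction, any `j`) are ordered by the conductor `N`, their height being at most
`N ^ β`-like, `β < 10/7`; more generally by any invariant `I` which is at least a constant times the part prime to `6` of
the conductor and at most a constant times the height. There are between `c Z ^ (5/6)` and `C Z ^ (5/6)` of them with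
`I ≤ Z` and height at most `Z ^ β`. For every `a ≥ 0` a positive proportion of them has a 2-Selmer group with exactly
`2 ^ a` elements and rank at most `a`; in particular (`a = 0`) a positive proportion has rank zero. If `I` is at least a
constant times the discriminant, this holds for all `β ≤ 5/2`.

The lower bound for the number of the curves with given 2-Selmer rank and bounded height is the case `F = ℚ` of
`MP_7cad78_nt.EverySelmerRank` (project SP, helper94); the upper bound for the number of the curves of conductor at most `Z`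
is due to helper45 (`Pool/Agent/L0h45/AD`).
-/

set_option autoImplicit false
set_option linter.all false

namespace Pool.Agent.Results.MP_6073f3_nt.SelmerRanksByConductor

open Filter NumberField Polynomial IsDedekindDomain
open Pool.Agent.TH115.GD (Pt act rs IsCoc LocTriv Comp Sep)
open scoped Classical

/-- The pairs `(A, B)` with `4 A ^ 3 + 27 B ^ 2 ≠ 0` for which no prime `p` satisfies both `p ^ 4 ∣ A` and `p ^ 6 ∣ B`: one
for each elliptic curve over `ℚ`. -/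
def Family : Set (ℤ × ℤ) := {q | 4 * q.1 ^ 3 + 27 * q.2 ^ 2 ≠ 0 ∧
  ∀ p : ℕ, p.Prime → ¬ ((p : ℤ) ^ 4 ∣ q.1 ∧ (p : ℤ) ^ 6 ∣ q.2)}

/-- The curve `y ^ 2 = x ^ 3 + A x + B` over `ℚ`. -/
def curve (q : ℤ × ℤ) : WeierstrassCurve ℚ := ⟨0, 0, 0, (q.1 : ℚ), (q.2 : ℚ)⟩

/-- The rank of the group of the rational points. -/
noncomputable def rank (q : ℤ × ℤ) : ℕ := Module.finrank ℤ (curve q).toAffine.Point

/-- The naive height `max (4 |A| ^ 3, 27 B ^ 2)`. -/
noncomputable def height (q : ℤ × ℤ) : ℝ := max (4 * |(q.1 : ℝ)| ^ 3) (27 * (q.2 : ℝ) ^ 2)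

/-- `4 A ^ 3 + 27 B ^ 2`; the minimal discriminant is this number times `-16`, divided by `1`, `2 ^ 12`, `3 ^ 12` or
`6 ^ 12`. -/
def disc (q : ℤ × ℤ) : ℤ := 4 * q.1 ^ 3 + 27 * q.2 ^ 2

/-- The part prime to `6` of the conductor: the product over the primes `p ≥ 5` of bad reduction of `p` (multiplicative
reduction) or `p ^ 2` (additive reduction, that is `p ∣ A`). The conductor is this number times `2 ^ a * 3 ^ b` with
`a ≤ 8` and `b ≤ 5`. -/
def conductor6 (q : ℤ × ℤ) : ℕ :=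
  ∏ p ∈ (disc q).natAbs.primeFactors.filter (fun p => 5 ≤ p), if (p : ℤ) ∣ q.1 then p ^ 2 else p

/-- The curves with `I ≤ Z` and height at most `Z ^ β`. -/
def UpTo (I : ℤ × ℤ → ℝ) (β Z : ℝ) : Set (ℤ × ℤ) := {q ∈ Family | I q ≤ Z ∧ height q ≤ Z ^ β}

/-- A continuous cocycle of the absolute Galois group `Gal(Sep ℚ / ℚ)` of `ℚ` with values in the group `E[2]` of the points
of order at most two of `E = curve q` over the algebraic closure `Sep ℚ`. -/
def IsCocycle (q : ℤ × ℤ) (f : (Sep ℚ ≃ₐ[ℚ] Sep ℚ) → Pt (curve q) (Sep ℚ)) : Prop :=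
  IsCoc (curve q) f ∧ ∀ σ, (2 : ℕ) • f σ = 0

/-- The cocycles `f` and `g` differ by the coboundary `σ ↦ σ T - T` of a point `T` of `E[2]`. -/
def Cohomologous (q : ℤ × ℤ) (f g : (Sep ℚ ≃ₐ[ℚ] Sep ℚ) → Pt (curve q) (Sep ℚ)) : Prop :=
  ∃ T : Pt (curve q) (Sep ℚ), (2 : ℕ) • T = 0 ∧ ∀ σ, f σ - g σ = act (curve q) (rs ℚ σ) T - T

/-- The set `H¹(ℚ, E[2])` of the classes of the cocycles. -/
def H1 (q : ℤ × ℤ) : Type := Quot fun f g : {f // IsCocycle q f} => Cohomologous q f.1 g.1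

/-- The cocycle becomes a coboundary in `E(Sep ℚ_v)` at every place `v` of `ℚ`: at the completion of `ℚ` for every nonzero
prime ideal `w` of the ring of integers of `ℚ`, and over `ℝ`. -/
structure EverywhereTrivial (q : ℤ × ℤ) (f : (Sep ℚ ≃ₐ[ℚ] Sep ℚ) → Pt (curve q) (Sep ℚ)) :
    Prop where
  finite : ∀ w : HeightOneSpectrum (𝓞 ℚ),
    LocTriv (curve q) (Comp (𝓞 ℚ) ℚ w) (Sep (Comp (𝓞 ℚ) ℚ w)) f
  real : ∀ ρ : ℚ →+* ℝ, letI := ρ.toAlgebra; LocTriv (curve q) ℝ (Sep ℝ) f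

/-- The 2-Selmer group of `E` over `ℚ`: the kernel of `H¹(ℚ, E[2]) → ∏ H¹(ℚ_v, E)`. -/
def Selmer (q : ℤ × ℤ) : Set (H1 q) := {c | ∃ f, c = Quot.mk _ f ∧ EverywhereTrivial q f.1}

/-- There is no rational point of order 2, the 2-Selmer group has exactly `2 ^ a` elements and the rank is at most `a`. -/
def SelmerRank (a : ℕ) (q : ℤ × ℤ) : Prop :=
  Irreducible (X ^ 3 + C (q.1 : ℚ) * X + C (q.2 : ℚ) : ℚ[X]) ∧ (Selmer q).ncard = 2 ^ a ∧ rank q ≤ a

/-- The proportion of the curves of rank `r`. -/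
noncomputable def proportion (r : ℕ) (I : ℤ × ℤ → ℝ) (β Z : ℝ) : ℝ :=
  ({q ∈ UpTo I β Z | rank q = r}.ncard : ℝ) / ((UpTo I β Z).ncard : ℝ)

/-- The conclusion: there are about `Z ^ (5/6)` curves; for every `a ≥ 0` there is a positive proportion (depending on `a`)
with 2-Selmer rank `a`; the lower density of the curves of rank zero is positive. -/
def Law (I : ℤ × ℤ → ℝ) (β : ℝ) : Prop :=
  (∀ Z : ℝ, (UpTo I β Z).Finite) ∧
  (∃ c C : ℝ, 0 < c ∧ ∀ᶠ Z : ℝ in atTop,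
    c * Z ^ (5 / 6 : ℝ) ≤ ((UpTo I β Z).ncard : ℝ) ∧ ((UpTo I β Z).ncard : ℝ) ≤ C * Z ^ (5 / 6 : ℝ)) ∧
  (∀ a : ℕ, ∃ c : ℝ, 0 < c ∧ ∀ᶠ Z : ℝ in atTop, c * ((UpTo I β Z).ncard : ℝ) ≤
    ({q ∈ UpTo I β Z | SelmerRank a q}.ncard : ℝ)) ∧
  0 < liminf (proportion 0 I β) atTop

theorem coh_equiv (q : ℤ × ℤ) :
    Equivalence fun f g : {f // IsCocycle q f} => Cohomologous q f.1 g.1 where
  refl f := ⟨0, by simp, fun σ => by simp⟩
  symm := by
    rintro f g ⟨T, hT, h⟩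
    refine ⟨-T, by rw [smul_neg, hT, neg_zero], fun σ => ?_⟩
    rw [map_neg, ← neg_sub (f.1 σ), h σ]
    abel
  trans := by
    rintro f g k ⟨T, hT, h⟩ ⟨T', hT', h'⟩
    refine ⟨T + T', by rw [smul_add, hT, hT', add_zero], fun σ => ?_⟩
    rw [map_add, ← sub_add_sub_cancel (f.1 σ) (g.1 σ) (k.1 σ), h σ, h' σ]
    abel

theorem mk_eq_iff (q : ℤ × ℤ) (f g : {f // IsCocycle q f}) :
    (Quot.mk _ f : H1 q) = Quot.mk _ g ↔ Cohomologous q f.1 g.1 := by
  refine ⟨fun h => ?_, fun h => Quot.sound h⟩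
  have h1 := Quot.eqvGen_exact h
  exact (Equivalence.eqvGen_iff (coh_equiv q)).1 h1

theorem card_of (q : ℤ × ℤ) (N : ℕ)
    (h : Pool.Agent.L0h94.SP.SelCN (Pool.Agent.N874.PP.sW (q.1 : ℚ) (q.2 : ℚ)) N) :
    (Selmer q).ncard = N := by
  obtain ⟨R, hR, h1, h2, h3⟩ := h
  have hc : ∀ f ∈ R, IsCocycle q f := fun f hf => (h1 f hf).1
  let φ : {f // f ∈ R} → H1 q := fun f => Quot.mk _ ⟨f.1, hc f.1 f.2⟩
  have him : Selmer q = Set.range φ := by
    ext c
    constructor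
    · rintro ⟨f, rfl, hf⟩
      obtain ⟨g, hg, hfg⟩ := h3 f.1 f.2 ⟨hf.finite, hf.real⟩
      refine ⟨⟨g, hg⟩, ?_⟩
      have hfg' : Cohomologous q f.1 (⟨g, hc g hg⟩ : {f // IsCocycle q f}).1 := hfg
      exact ((mk_eq_iff q _ _).2 hfg').symm
    · rintro ⟨f, rfl⟩
      exact ⟨⟨f.1, hc f.1 f.2⟩, rfl, ⟨(h1 f.1 f.2).2.fin, (h1 f.1 f.2).2.real⟩⟩
  have hinj : Function.Injective φ := by
    intro f g he
    by_contra hne
    exact h2 f.1 f.2 g.1 g.2 (fun e => hne (Subtype.ext e)) ((mk_eq_iff q _ _).1 he)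
  rw [him, ← Set.image_univ, Set.ncard_image_of_injective _ hinj, Set.ncard_univ,
    Nat.card_eq_fintype_card, Fintype.card_coe, hR]

/-- the rank does not depend on the instance for the equality of rational numbers -/
theorem rank_inst (W : WeierstrassCurve ℚ) (i j : DecidableEq ℚ) :
    (letI := i; Module.finrank ℤ W.toAffine.Point) =
      (letI := j; Module.finrank ℤ W.toAffine.Point) := by
  obtain rfl : i = j := Subsingleton.elim i j
  rfl

/-- many curves of bounded height have 2-Selmer rank `a` -/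
theorem selmer_low (a : ℕ) : ∃ c₀ : ℝ, 0 < c₀ ∧ ∀ᶠ Y : ℝ in atTop, c₀ * Y ^ (5 / 6 : ℝ) ≤
    ((Pool.Agent.L0h45.AD.BH Y ∩ {q | SelmerRank a q}).ncard : ℝ) := by
  obtain ⟨c, hc, Y₀, h⟩ := Pool.Agent.L0h94.SP.m_fns ℚ a
  obtain ⟨c₁, hc₁, hlow⟩ := Pool.Agent.L0h45.AD.card_BH_low
  refine ⟨c * c₁, by positivity, ?_⟩
  filter_upwards [eventually_ge_atTop Y₀, eventually_ge_atTop 1000] with Y hY hY2
  obtain ⟨-, h2⟩ := h Y
  obtain ⟨-, h3⟩ := h2 hY
  have e1 : {p : 𝓞 ℚ × 𝓞 ℚ | Pool.Agent.N783.PF.Crv Y p} =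
      Pool.Agent.L0h45.AD.toO '' (Pool.Agent.L0h45.AD.BH Y) := by
    ext p
    obtain ⟨q, rfl⟩ := Pool.Agent.L0h45.AD.toO_surj p
    rw [Set.mem_ofPred_eq, Pool.Agent.L0h45.AD.crv_iff,
      Pool.Agent.L0h45.AD.toO_inj.mem_set_image]
  have e2 : {p : 𝓞 ℚ × 𝓞 ℚ | Pool.Agent.N783.PF.Crv Y p ∧
      Irreducible (Pool.Agent.N783.PF.fF
        (Polynomial.X ^ 3 + C p.1 * Polynomial.X + C p.2 : (𝓞 ℚ)[X])) ∧
      Pool.Agent.L0h94.SP.SelN
        (Polynomial.X ^ 3 + C p.1 * Polynomial.X + C p.2 : (𝓞 ℚ)[X]) (2 ^ a)} ⊆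
      Pool.Agent.L0h45.AD.toO '' (Pool.Agent.L0h45.AD.BH Y ∩ {q | SelmerRank a q}) := by
    rintro p ⟨h4, hi, hs⟩
    obtain ⟨q, rfl⟩ := Pool.Agent.L0h45.AD.toO_surj p
    rw [Pool.Agent.L0h45.AD.toO_inj.mem_set_image]
    refine ⟨(Pool.Agent.L0h45.AD.crv_iff Y q).mp h4, ?_⟩
    have k1 : (((Pool.Agent.L0h45.AD.toO q).1 : 𝓞 ℚ) : ℚ) = (q.1 : ℚ) :=
      Pool.Agent.L0h45.AD.castO q.1
    have k2 : (((Pool.Agent.L0h45.AD.toO q).2 : 𝓞 ℚ) : ℚ) = (q.2 : ℚ) :=
      Pool.Agent.L0h45.AD.castO q.2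
    have m1 := Pool.Agent.L0h94.SP.m_cod ℚ _ _ _ h4.disc hi hs
    have m2 := Pool.Agent.L0h94.SP.m_rkn ℚ _ _ _ h4.disc hi hs
    rw [k1, k2] at m1 m2
    have m3 : 2 ^ rank q ≤ 2 ^ a := by
      refine le_trans (le_of_eq ?_) m2
      exact congrArg (fun n => 2 ^ n) (rank_inst _ _ _)
    refine ⟨?_, card_of q _ m1, (Nat.pow_le_pow_iff_right (by norm_num)).1 m3⟩
    have e3 : Pool.Agent.N783.PF.fF (Polynomial.X ^ 3 +
        C (Pool.Agent.L0h45.AD.toO q).1 * Polynomial.X + C (Pool.Agent.L0h45.AD.toO q).2 :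
          (𝓞 ℚ)[X]) = X ^ 3 + C (q.1 : ℚ) * X + C (q.2 : ℚ) := by
      rw [← k1, ← k2]
      unfold Pool.Agent.N783.PF.fF
      simp
    rw [← e3]
    exact hi
  have hfin : (Pool.Agent.L0h45.AD.BH Y ∩ {q | SelmerRank a q}).Finite :=
    (Pool.Agent.L0h45.AD.BH_fin Y).inter_of_left _
  have h4 := Set.ncard_le_ncard e2 (hfin.image Pool.Agent.L0h45.AD.toO)
  rw [Set.ncard_image_of_injective _ Pool.Agent.L0h45.AD.toO_inj] at h4
  rw [e1, Set.ncard_image_of_injective _ Pool.Agent.L0h45.AD.toO_inj] at h3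
  calc c * c₁ * Y ^ (5 / 6 : ℝ) = c * (c₁ * Y ^ (5 / 6 : ℝ)) := by ring
    _ ≤ c * ((Pool.Agent.L0h45.AD.BH Y).ncard : ℝ) := by
        have := hlow Y hY2
        gcongr
    _ ≤ _ := h3
    _ ≤ _ := by exact_mod_cast h4

theorem conclude {I : ℤ × ℤ → ℝ} {β C : ℝ} (hβ : 1 ≤ β)
    (hU : ∃ C₁ : ℝ, 0 < C₁ ∧ ∀ Z : ℝ, 1 ≤ Z →
      ((Pool.Agent.L0h45.AD.Upto I β Z).ncard : ℝ) ≤ C₁ * Z ^ (5 / 6 : ℝ))
    (hI : ∀ q ∈ Family, I q ≤ C * height q) : Law I β := by
  have hI' : Pool.Agent.L0h45.AD.Blw C I := hI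
  have hfin : ∀ Z : ℝ, (UpTo I β Z).Finite := Pool.Agent.L0h45.AD.Upto_fin I β
  have hpos := fun a => Pool.Agent.L0h45.AD.pos hβ hU hI' (selmer_low a)
  obtain ⟨c₂, hc₂, h₂⟩ := Pool.Agent.L0h45.AD.low hβ hI'
  obtain ⟨C₁, hC₁, hup⟩ := hU
  have hset : ∀ (a : ℕ) (Z : ℝ), {q ∈ UpTo I β Z | SelmerRank a q} =
      Pool.Agent.L0h45.AD.Upto I β Z ∩ {q | SelmerRank a q} := fun a Z => rfl
  refine ⟨hfin, ⟨c₂, C₁, hc₂, ?_⟩, ?_, ?_⟩
  · filter_upwards [h₂, eventually_ge_atTop 1] with Z h3 h4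
    exact ⟨h3, hup Z h4⟩
  · intro a
    obtain ⟨c₁, hc₁, h₁⟩ := hpos a
    refine ⟨c₁, hc₁, ?_⟩
    filter_upwards [h₁] with Z h3
    rw [hset]
    exact h3.2
  · obtain ⟨c₁, hc₁, h₁⟩ := hpos 0
    have hev : ∀ᶠ Z : ℝ in atTop, c₁ ≤ proportion 0 I β Z := by
      filter_upwards [h₁] with Z h3
      obtain ⟨h4, h5⟩ := h3
      rw [← hset] at h5
      have h6 : {q ∈ UpTo I β Z | SelmerRank 0 q} ⊆
          {q ∈ UpTo I β Z | rank q = 0} := fun q hq => ⟨hq.1, Nat.le_zero.1 hq.2.2.2⟩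
      have h7 := Set.ncard_le_ncard h6 ((hfin Z).subset fun q hq => hq.1)
      have h8 : 0 < (UpTo I β Z).ncard := h4
      unfold proportion
      rw [le_div_iff₀ (by exact_mod_cast h8)]
      exact h5.trans (by exact_mod_cast h7)
    refine lt_of_lt_of_le hc₁ (Filter.le_liminf_of_le ?_ hev)
    refine Filter.IsBoundedUnder.isCoboundedUnder_ge ?_
    refine Filter.isBoundedUnder_of ⟨1, fun Z => ?_⟩
    unfold proportion
    refine div_le_one_of_le₀ ?_ (Nat.cast_nonneg _)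
    exact_mod_cast Set.ncard_le_ncard (s := {q ∈ UpTo I β Z | rank q = 0}) (fun q hq => hq.1) (hfin Z)

theorem conductor6_le (q : ℤ × ℤ) (h : q ∈ Family) : (conductor6 q : ℝ) ≤ |(disc q : ℝ)| := by
  have hD : disc q ≠ 0 := h.1
  have hdvd : ((conductor6 q : ℕ) : ℤ) ∣ disc q := by
    unfold conductor6
    push_cast
    apply Finset.prod_dvd_of_coprime
    · intro p hp p' hp' hne
      have h1 := Nat.prime_of_mem_primeFactors (Finset.mem_filter.mp hp).1
      have h2 := Nat.prime_of_mem_primeFactors (Finset.mem_filter.mp hp').1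
      have h3 : IsCoprime (p : ℤ) (p' : ℤ) :=
        Nat.isCoprime_iff_coprime.mpr ((Nat.coprime_primes h1 h2).mpr hne)
      simp only [Function.onFun]
      split_ifs
      · exact h3.pow
      · exact h3.pow_left
      · exact h3.pow_right
      · exact h3
    · intro p hp
      rw [Finset.mem_filter, Nat.mem_primeFactors] at hp
      obtain ⟨⟨h1, h2, -⟩, h5⟩ := hp
      have h3 : (p : ℤ) ∣ disc q := Int.natCast_dvd.mpr h2
      split_ifs with h4
      · obtain ⟨k, hk⟩ := h4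
        have h6 : (p : ℤ) ∣ 27 * q.2 ^ 2 := by
          have h7 : 27 * q.2 ^ 2 = disc q - p * (4 * q.1 ^ 2 * k) := by
            unfold disc
            nth_rewrite 1 [pow_succ, hk]
            rw [hk]
            ring
          rw [h7]
          exact dvd_sub h3 (dvd_mul_right _ _)
        have h8 : (p : ℤ) ∣ q.2 := by
          have hc : IsCoprime (p : ℤ) 27 := by
            have h9 : Nat.Coprime p 27 := by
              have : (27 : ℕ) = 3 ^ 3 := by norm_num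
              rw [this]
              exact Nat.Coprime.pow_right 3 ((Nat.coprime_primes h1 Nat.prime_three).mpr (by omega))
            exact_mod_cast Nat.isCoprime_iff_coprime.mpr h9
          exact (Nat.prime_iff_prime_int.mp h1).dvd_of_dvd_pow (hc.dvd_of_dvd_mul_left h6)
        obtain ⟨l, hl⟩ := h8
        refine ⟨4 * p * k ^ 3 + 27 * l ^ 2, ?_⟩
        unfold disc
        rw [hk, hl]
        ring
      · exact h3
  have h1 : conductor6 q ≤ (disc q).natAbs :=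
    Nat.le_of_dvd (Int.natAbs_pos.mpr hD) (Int.natCast_dvd.mp hdvd)
  calc (conductor6 q : ℝ) ≤ (((disc q).natAbs : ℕ) : ℝ) := by exact_mod_cast h1
    _ = |(disc q : ℝ)| := by
      rw [← Int.cast_abs, Int.abs_eq_natAbs]
      simp

theorem disc_le (q : ℤ × ℤ) : |(disc q : ℝ)| ≤ 2 * height q := by
  unfold disc height
  push_cast
  have h1 := abs_add_le (4 * (q.1 : ℝ) ^ 3) (27 * (q.2 : ℝ) ^ 2)
  rw [abs_mul, abs_mul, abs_pow, abs_pow, abs_of_pos (by norm_num : (0 : ℝ) < 4),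
    abs_of_pos (by norm_num : (0 : ℝ) < 27), sq_abs] at h1
  have h2 := le_max_left (4 * |(q.1 : ℝ)| ^ 3) (27 * (q.2 : ℝ) ^ 2)
  have h3 := le_max_right (4 * |(q.1 : ℝ)| ^ 3) (27 * (q.2 : ℝ) ^ 2)
  linarith

/-- **Theorem.** (1) Let `1 < β < 10/7` and let the invariant `I` be at least `c` times the part prime to `6` of the
conductor and at most `C` times the height, with constants `c, C > 0`; for example `I` may be the conductor. Then `Law I β`:
there are about `Z ^ (5/6)` elliptic curves over `ℚ` with `I ≤ Z` and height at most `Z ^ β`; for every `a ≥ 0` a positive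
proportion of them has a 2-Selmer group with exactly `2 ^ a` elements, no rational point of order 2 and rank at most `a`;
and the lower density of rank zero is positive. (2) If `I` is at least `c` times the discriminant, for example the minimal
discriminant, this is true for `1 < β ≤ 5/2`. (3) The part prime to `6` of the conductor is at most `|4 A ^ 3 + 27 B ^ 2|`,
which is at most twice the height. -/
theorem result :
    (∀ (I : ℤ × ℤ → ℝ) (c C β : ℝ), 0 < c → 0 < C → 1 < β → β < 10 / 7 →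
      (∀ q ∈ Family, c * (conductor6 q : ℝ) ≤ I q ∧ I q ≤ C * height q) → Law I β) ∧
    (∀ (I : ℤ × ℤ → ℝ) (c C β : ℝ), 0 < c → 0 < C → 1 < β → β ≤ 5 / 2 →
      (∀ q ∈ Family, c * |(disc q : ℝ)| ≤ I q ∧ I q ≤ C * height q) → Law I β) ∧
    (∀ q ∈ Family, (conductor6 q : ℝ) ≤ |(disc q : ℝ)| ∧ |(disc q : ℝ)| ≤ 2 * height q) := by
  refine ⟨?_, ?_, ?_⟩
  · intro I c C β hc hC hβ1 hβ2 hI
    have hI' : Pool.Agent.L0h45.AD.Btw c C I := hI
    exact conclude hβ1.le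
      (Pool.Agent.L0h45.AD.split (s := 1 / 12) (by norm_num) (by norm_num) (by linarith) hβ2 hc hI').up
      (fun q hq => (hI q hq).2)
  · intro I c C β hc hC hβ1 hβ2 hI
    exact conclude hβ1.le
      (Pool.Agent.L0h45.AD.up_disc (by linarith) hβ2 hc (fun q hq => (hI q hq).1))
      (fun q hq => (hI q hq).2)
  · intro q hq
    exact ⟨conductor6_le q hq, disc_le q⟩

end Pool.Agent.Results.MP_6073f3_nt.SelmerRanksByConductor
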